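import Mathlib

/-!
# Height functions on the `2 × n` grid with `d` extrema

A height function on the `2 × n` grid is a word in the letters `U, D, S` (both rows go up, both
go down, the rows are swapped), and its number of extrema is a sum over consecutive letters.
This gives `c_2(2) = 4 (d - 6)` for all `d ≥ 5`, so `c_2(2) ≠ -4 (d - 4)` for all `d ≥ 6`.
-/

namespace Pool.Agent.Results.MP_562107_co.WidthTwo

/-- The grid graph `G_{m,n}` (coordinates start at `0`). -/
abbrev grid (m n : ℕ) : SimpleGraph (Fin m × Fin n) :=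
  SimpleGraph.boxProd (SimpleGraph.pathGraph m) (SimpleGraph.pathGraph n)

/-- Height functions, normalised to vanish at the corner. -/
def IsHeight (m n : ℕ) (h : Fin m × Fin n → ℤ) : Prop :=
  (∀ u v, (grid m n).Adj u v → |h u - h v| = 1) ∧
    ∀ v : Fin m × Fin n, v.1.val = 0 → v.2.val = 0 → h v = 0

/-- `v` is a strict local minimum or a strict local maximum of `h`. -/
def IsExtremum {m n : ℕ} (h : Fin m × Fin n → ℤ) (v : Fin m × Fin n) : Prop :=
  (∀ u, (grid m n).Adj v u → h u = h v + 1) ∨ (∀ u, (grid m n).Adj v u → h u = h v - 1)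

/-- `E_d(m,n)`: the number of height functions on `G_{m,n}` with exactly `d` extrema. -/
noncomputable def E (d m n : ℕ) : ℕ :=
  Nat.card {h : Fin m × Fin n → ℤ // IsHeight m n h ∧ Set.ncard {v | IsExtremum h v} = d}

/-- `F_{d,m}(z) = ∑_{n ≥ 2} E_d(m,n) z^n`. -/
noncomputable def F (d m : ℕ) : PowerSeries ℚ :=
  PowerSeries.mk fun n => if 2 ≤ n then (E d m n : ℚ) else 0

/-- `G(z) = c_1/(1-z)^(d-1) + c_2/(1-z)^(d-2) + ⋯ + c_(d-1)/(1-z) + polynomial`. -/
def IsPrincipalExpansion (d : ℕ) (G : PowerSeries ℚ) (c : ℕ → ℚ) : Prop :=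
  ∃ Q : Polynomial ℚ, G = ∑ k ∈ Finset.Icc 1 (d - 1),
    PowerSeries.C (c k) * ((1 - PowerSeries.X)⁻¹) ^ (d - k) + (Q : PowerSeries ℚ)

/-! ### Columns and words -/

/-- The step of a column: `0` up, `1` down, `2` swap. -/
def step (x : Fin 3) (c : ℤ × ℤ) : ℤ × ℤ :=
  if x = 0 then (c.1 + 1, c.2 + 1) else if x = 1 then (c.1 - 1, c.2 - 1) else (c.2, c.1)

/-- Going back. -/
def bstep (x : Fin 3) (c : ℤ × ℤ) : ℤ × ℤ :=
  if x = 0 then (c.1 - 1, c.2 - 1) else if x = 1 then (c.1 + 1, c.2 + 1) else (c.2, c.1)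

lemma bstep_step (x : Fin 3) (c : ℤ × ℤ) : bstep x (step x c) = c := by
  unfold bstep step
  split_ifs <;> simp

/-- Admissible columns. -/
def Adm (c : ℤ × ℤ) : Prop := c.2 = c.1 + 1 ∨ c.2 = c.1 - 1

lemma adm_step (x : Fin 3) (c : ℤ × ℤ) (hc : Adm c) : Adm (step x c) := by
  unfold Adm at hc
  unfold Adm step
  split_ifs <;> simp only <;> omega

lemma step_inj (x y : Fin 3) (c : ℤ × ℤ) (h : Adm c) (hxy : step x c = step y c) : x = y := by
  unfold Adm at h
  unfold step at hxy
  fin_cases x <;> fin_cases y <;> simp [Prod.ext_iff] at hxy ⊢ <;> omega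

lemma exists_step (c c' : ℤ × ℤ) (h : Adm c) (h' : Adm c') (h1 : |c.1 - c'.1| = 1)
    (h2 : |c.2 - c'.2| = 1) : ∃ x : Fin 3, step x c = c' := by
  unfold Adm at *
  have h1' : c.1 - c'.1 = 1 ∨ c.1 - c'.1 = -1 := by
    rcases abs_cases (c.1 - c'.1) with h | h <;> omega
  have h2' : c.2 - c'.2 = 1 ∨ c.2 - c'.2 = -1 := by
    rcases abs_cases (c.2 - c'.2) with h | h <;> omega
  by_cases hU : c'.1 = c.1 + 1 ∧ c'.2 = c.2 + 1
  · exact ⟨0, by unfold step; rw [if_pos rfl, Prod.ext_iff]; exact ⟨hU.1.symm, hU.2.symm⟩⟩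
  by_cases hD : c'.1 = c.1 - 1 ∧ c'.2 = c.2 - 1
  · exact ⟨1, by
      unfold step
      rw [if_neg (by decide), if_pos rfl, Prod.ext_iff]
      exact ⟨hD.1.symm, hD.2.symm⟩⟩
  · refine ⟨2, ?_⟩
    unfold step
    rw [if_neg (by decide), if_neg (by decide), Prod.ext_iff]
    simp only
    omega

/-- The number of extrema in a column with incoming letter `x` and outgoing letter `y`. -/
def g (x y : Fin 3) : ℕ :=
  if x = 2 then (if y = 2 then 2 else 1) else if y = 2 then 1 else if x = y then 0 else 1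

lemma g_count (x y : Fin 3) (c : ℤ × ℤ) (h : Adm c) :
    (if (bstep x c).1 = c.2 ∧ (step y c).1 = c.2 then 1 else 0) +
      (if (bstep x c).2 = c.1 ∧ (step y c).2 = c.1 then 1 else 0) = g x y := by
  unfold Adm at h
  rcases h with h | h
  · unfold bstep step g
    rw [h]
    fin_cases x <;> fin_cases y <;> simp <;> (try omega)
  · unfold bstep step g
    rw [h]
    fin_cases x <;> fin_cases y <;> simp <;> (try omega)

/-- The extended word: first letter `p`, then `w`, then only `S`. -/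
def Wd (p : Fin 3) {N : ℕ} (w : Fin N → Fin 3) : ℕ → Fin 3
  | 0 => p
  | (j + 1) => if h : j < N then w ⟨j, h⟩ else 2

/-- The statistic of a word. -/
def stat (p : Fin 3) {N : ℕ} (w : Fin N → Fin 3) : ℕ :=
  ∑ j ∈ Finset.range (N + 1), g (Wd p w j) (Wd p w (j + 1))

/-- The columns of the height function given by the word `W`. -/
def col (e : ℤ) (W : ℕ → Fin 3) : ℕ → ℤ × ℤ
  | 0 => (0, e)
  | (j + 1) => step (W (j + 1)) (col e W j)

lemma col_adm (e : ℤ) (he : e = 1 ∨ e = -1) (W : ℕ → Fin 3) (j : ℕ) : Adm (col e W j) := by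
  induction j with
  | zero =>
    unfold col Adm
    simp only
    omega
  | succ j ih => exact adm_step _ _ ih

/-- The height function. -/
def ht (e : ℤ) {N : ℕ} (w : Fin N → Fin 3) (v : Fin 2 × Fin (N + 1)) : ℤ :=
  if v.1 = 0 then (col e (Wd 2 w) v.2.val).1 else (col e (Wd 2 w) v.2.val).2

lemma step_fst (x : Fin 3) (c : ℤ × ℤ) (h : Adm c) :
    |c.1 - (step x c).1| = 1 ∧ |c.2 - (step x c).2| = 1 := by
  unfold Adm at h
  unfold step
  split_ifs
  · simp
  · simp
  · simp only
    rcases h with h | h <;> rw [h] <;> simp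

lemma ht_isHeight (e : ℤ) (he : e = 1 ∨ e = -1) {N : ℕ} (w : Fin N → Fin 3) :
    IsHeight 2 (N + 1) (ht e w) := by
  have hstep : ∀ (i : Fin 2) (j j' : Fin (N + 1)), j.val + 1 = j'.val →
      |ht e w (i, j) - ht e w (i, j')| = 1 := by
    intro i j j' hj
    unfold ht
    simp only
    rw [← hj]
    have h1 := step_fst (Wd 2 w (j.val + 1)) _ (col_adm e he (Wd 2 w) j.val)
    split_ifs
    · exact h1.1
    · exact h1.2
  constructor
  · rintro ⟨i, j⟩ ⟨i', j'⟩ hadj
    rw [SimpleGraph.boxProd_adj] at hadj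
    simp only at hadj
    rcases hadj with ⟨h1, h2⟩ | ⟨h1, h2⟩
    · subst h2
      have hne : i ≠ i' := h1.ne
      have hadm := col_adm e he (Wd 2 w) j.val
      unfold Adm at hadm
      unfold ht
      simp only
      have hi : (i = 0 ∧ i' ≠ 0) ∨ (i ≠ 0 ∧ i' = 0) := by omega
      rcases hi with ⟨ha, hb⟩ | ⟨ha, hb⟩
      · rw [if_pos ha, if_neg hb]
        rcases hadm with h | h <;> rw [h] <;> simp
      · rw [if_neg ha, if_pos hb]
        rcases hadm with h | h <;> rw [h] <;> simp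
    · subst h2
      rw [SimpleGraph.pathGraph_adj] at h1
      rcases h1 with h1 | h1
      · exact hstep i j j' h1
      · rw [abs_sub_comm]
        exact hstep i j' j h1
  · rintro ⟨i, j⟩ hi hj
    simp only at hi hj
    have hi' : i = 0 := Fin.ext hi
    unfold ht
    simp only
    rw [if_pos hi', hj]
    rfl

/-- The other row. -/
lemma ht_zero (e : ℤ) {N : ℕ} (w : Fin N → Fin 3) (j : Fin (N + 1)) :
    ht e w (0, j) = (col e (Wd 2 w) j.val).1 := by
  unfold ht
  simp

lemma ht_one (e : ℤ) {N : ℕ} (w : Fin N → Fin 3) (j : Fin (N + 1)) :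
    ht e w (1, j) = (col e (Wd 2 w) j.val).2 := by
  unfold ht
  simp

lemma ht_injective {e e' : ℤ} (he : e = 1 ∨ e = -1) {N : ℕ}
    {w w' : Fin N → Fin 3} (h : ht e w = ht e' w') : e = e' ∧ w = w' := by
  have hcol : ∀ j : Fin (N + 1), col e (Wd 2 w) j.val = col e' (Wd 2 w') j.val := by
    intro j
    have h0 := congrFun h (0, j)
    have h1 := congrFun h (1, j)
    rw [ht_zero, ht_zero] at h0
    rw [ht_one, ht_one] at h1
    exact Prod.ext h0 h1
  have hee : e = e' := by
    have := hcol 0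
    simp only [Fin.val_zero, col, Prod.mk.injEq, true_and] at this
    exact this
  refine ⟨hee, ?_⟩
  funext j
  have h1 := hcol j.castSucc
  have h2 := hcol j.succ
  rw [Fin.val_succ] at h2
  simp only [Fin.val_castSucc] at h1
  change step (Wd 2 w (j.val + 1)) (col e (Wd 2 w) j.val) =
    step (Wd 2 w' (j.val + 1)) (col e' (Wd 2 w') j.val) at h2
  rw [← h1] at h2
  have h3 := step_inj _ _ _ (col_adm e he _ _) h2
  have h4 : ∀ v : Fin N → Fin 3, Wd 2 v (j.val + 1) = v j := by
    intro v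
    change (if h : j.val < N then v ⟨j.val, h⟩ else 2) = v j
    rw [dif_pos j.2]
  rw [h4, h4] at h3
  exact h3

lemma ht_surjective {N : ℕ} (h : Fin 2 × Fin (N + 1) → ℤ) (hh : IsHeight 2 (N + 1) h) :
    ∃ e : ℤ, (e = 1 ∨ e = -1) ∧ ∃ w : Fin N → Fin 3, ht e w = h := by
  obtain ⟨hadj, h00⟩ := hh
  have hadm : ∀ j : Fin (N + 1), Adm (h (0, j), h (1, j)) := by
    intro j
    have h1 := hadj (0, j) (1, j) (by
      rw [SimpleGraph.boxProd_adj]
      left
      refine ⟨?_, rfl⟩
      rw [SimpleGraph.pathGraph_adj]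
      left
      rfl)
    unfold Adm
    simp only
    rcases abs_cases (h (0, j) - h (1, j)) with h | h <;> omega
  have hrow : ∀ (i : Fin 2) (j : Fin N), |h (i, j.castSucc) - h (i, j.succ)| = 1 := by
    intro i j
    refine hadj _ _ ?_
    rw [SimpleGraph.boxProd_adj]
    right
    refine ⟨?_, rfl⟩
    rw [SimpleGraph.pathGraph_adj]
    left
    simp
  have hex : ∀ j : Fin N, ∃ x : Fin 3,
      step x (h (0, j.castSucc), h (1, j.castSucc)) = (h (0, j.succ), h (1, j.succ)) :=
    fun j => exists_step _ _ (hadm _) (hadm _) (hrow 0 j) (hrow 1 j)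
  choose w hw using hex
  refine ⟨h (1, 0), ?_, w, ?_⟩
  · have h1 := hadm 0
    unfold Adm at h1
    simp only at h1
    have h2 := h00 (0, 0) rfl rfl
    omega
  · have hcol : ∀ (j : ℕ) (hj : j < N + 1),
        col (h (1, 0)) (Wd 2 w) j = (h (0, ⟨j, hj⟩), h (1, ⟨j, hj⟩)) := by
      intro j
      induction j with
      | zero =>
        intro hj
        have h2 := h00 (0, 0) rfl rfl
        change ((0 : ℤ), h (1, 0)) = _
        rw [← h2]
        rfl
      | succ j ih =>
        intro hj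
        change step (Wd 2 w (j + 1)) (col (h (1, 0)) (Wd 2 w) j) = _
        rw [ih (by omega)]
        have hlt : j < N := by omega
        have h4 : Wd 2 w (j + 1) = w ⟨j, hlt⟩ := by
          change (if h : j < N then w ⟨j, h⟩ else 2) = w ⟨j, hlt⟩
          rw [dif_pos hlt]
        rw [h4]
        exact hw ⟨j, hlt⟩
    funext v
    obtain ⟨i, j⟩ := v
    have hc := hcol j.val j.2
    unfold ht
    simp only
    rw [hc]
    by_cases hi : i = 0
    · rw [if_pos hi, hi]
    · rw [if_neg hi]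
      have : i = 1 := by omega
      rw [this]

lemma extremum_iff {N : ℕ} (h : Fin 2 × Fin (N + 1) → ℤ) (i i' : Fin 2) (hi : i ≠ i')
    (j : Fin (N + 1)) (hv : h (i', j) = h (i, j) + 1 ∨ h (i', j) = h (i, j) - 1) :
    IsExtremum h (i, j) ↔
      ((∀ j' : Fin (N + 1), j'.val + 1 = j.val → h (i, j') = h (i', j)) ∧
       (∀ j' : Fin (N + 1), j.val + 1 = j'.val → h (i, j') = h (i', j))) := by
  have hadj1 : (grid 2 (N + 1)).Adj (i, j) (i', j) := by
    rw [SimpleGraph.boxProd_adj]
    left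
    refine ⟨?_, rfl⟩
    rw [SimpleGraph.pathGraph_adj]
    simp only
    omega
  have hadj2 : ∀ j' : Fin (N + 1), (j'.val + 1 = j.val ∨ j.val + 1 = j'.val) →
      (grid 2 (N + 1)).Adj (i, j) (i, j') := by
    intro j' hj'
    rw [SimpleGraph.boxProd_adj]
    right
    refine ⟨?_, rfl⟩
    rw [SimpleGraph.pathGraph_adj]
    exact hj'.symm
  constructor
  · rintro (hE | hE)
    · have h1 := hE _ hadj1
      exact ⟨fun j' hj' => by rw [hE _ (hadj2 j' (Or.inl hj')), h1],
        fun j' hj' => by rw [hE _ (hadj2 j' (Or.inr hj')), h1]⟩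
    · have h1 := hE _ hadj1
      exact ⟨fun j' hj' => by rw [hE _ (hadj2 j' (Or.inl hj')), h1],
        fun j' hj' => by rw [hE _ (hadj2 j' (Or.inr hj')), h1]⟩
  · rintro ⟨ha, hb⟩
    have hall : ∀ u, (grid 2 (N + 1)).Adj (i, j) u → h u = h (i', j) := by
      rintro ⟨a, b⟩ hu
      rw [SimpleGraph.boxProd_adj] at hu
      simp only at hu
      rcases hu with ⟨h1, h2⟩ | ⟨h1, h2⟩
      · have : a = i' := by
          have := h1.ne
          omega
        rw [this, h2]
      · rw [SimpleGraph.pathGraph_adj] at h1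
        rw [← h2]
        rcases h1 with h1 | h1
        · exact hb b h1
        · exact ha b h1
    rcases hv with hv | hv
    · exact Or.inl fun u hu => by rw [hall u hu, hv]
    · exact Or.inr fun u hu => by rw [hall u hu, hv]

lemma next_iff (e : ℤ) {N : ℕ} (w : Fin N → Fin 3) (j : Fin (N + 1)) :
    ((∀ j' : Fin (N + 1), j.val + 1 = j'.val → (col e (Wd 2 w) j'.val).1 = (col e (Wd 2 w) j.val).2)
      ↔ (step (Wd 2 w (j.val + 1)) (col e (Wd 2 w) j.val)).1 = (col e (Wd 2 w) j.val).2) ∧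
    ((∀ j' : Fin (N + 1), j.val + 1 = j'.val → (col e (Wd 2 w) j'.val).2 = (col e (Wd 2 w) j.val).1)
      ↔ (step (Wd 2 w (j.val + 1)) (col e (Wd 2 w) j.val)).2 = (col e (Wd 2 w) j.val).1) := by
  by_cases hj : j.val + 1 < N + 1
  · constructor
    · constructor
      · intro h
        exact h ⟨j.val + 1, hj⟩ rfl
      · intro h j' hj'
        rw [← hj']
        exact h
    · constructor
      · intro h
        exact h ⟨j.val + 1, hj⟩ rfl
      · intro h j' hj'
        rw [← hj']
        exact h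
  · have hW : Wd 2 w (j.val + 1) = 2 := by
      change (if h : j.val < N then w ⟨j.val, h⟩ else 2) = 2
      rw [dif_neg (by omega)]
    rw [hW]
    have hs : ∀ c : ℤ × ℤ, step 2 c = (c.2, c.1) := by
      intro c
      unfold step
      rw [if_neg (by decide), if_neg (by decide)]
    rw [hs]
    constructor
    · constructor
      · intro _
        rfl
      · intro _ j' hj'
        have := j'.2
        omega
    · constructor
      · intro _
        rfl
      · intro _ j' hj'
        have := j'.2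
        omega

lemma prev_iff (e : ℤ) {N : ℕ} (w : Fin N → Fin 3) (j : Fin (N + 1)) :
    ((∀ j' : Fin (N + 1), j'.val + 1 = j.val → (col e (Wd 2 w) j'.val).1 = (col e (Wd 2 w) j.val).2)
      ↔ (bstep (Wd 2 w j.val) (col e (Wd 2 w) j.val)).1 = (col e (Wd 2 w) j.val).2) ∧
    ((∀ j' : Fin (N + 1), j'.val + 1 = j.val → (col e (Wd 2 w) j'.val).2 = (col e (Wd 2 w) j.val).1)
      ↔ (bstep (Wd 2 w j.val) (col e (Wd 2 w) j.val)).2 = (col e (Wd 2 w) j.val).1) := by
  obtain ⟨j, hj⟩ := j
  rcases j with _ | j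
  · have hs : ∀ c : ℤ × ℤ, bstep 2 c = (c.2, c.1) := by
      intro c
      unfold bstep
      rw [if_neg (by decide), if_neg (by decide)]
    have hW : Wd 2 w 0 = 2 := rfl
    simp only
    rw [hW, hs]
    constructor
    · constructor
      · intro _
        rfl
      · intro _ j' hj'
        omega
    · constructor
      · intro _
        rfl
      · intro _ j' hj'
        omega
  · simp only
    have hc : bstep (Wd 2 w (j + 1)) (col e (Wd 2 w) (j + 1)) = col e (Wd 2 w) j :=
      bstep_step _ _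
    rw [hc]
    constructor
    · constructor
      · intro h
        exact h ⟨j, by omega⟩ rfl
      · intro h j' hj'
        have : j'.val = j := by omega
        rw [this]
        exact h
    · constructor
      · intro h
        exact h ⟨j, by omega⟩ rfl
      · intro h j' hj'
        have : j'.val = j := by omega
        rw [this]
        exact h

lemma ncard_extrema (e : ℤ) (he : e = 1 ∨ e = -1) {N : ℕ} (w : Fin N → Fin 3) :
    Set.ncard {v | IsExtremum (ht e w) v} = stat 2 w := by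
  classical
  have hadm : ∀ j : Fin (N + 1), Adm (col e (Wd 2 w) j.val) := fun j => col_adm e he _ _
  have h0 : ∀ j : Fin (N + 1), IsExtremum (ht e w) (0, j) ↔
      ((bstep (Wd 2 w j.val) (col e (Wd 2 w) j.val)).1 = (col e (Wd 2 w) j.val).2 ∧
      (step (Wd 2 w (j.val + 1)) (col e (Wd 2 w) j.val)).1 = (col e (Wd 2 w) j.val).2) := by
    intro j
    rw [extremum_iff (ht e w) 0 1 (by decide) j]
    · simp only [ht_zero, ht_one]
      rw [(prev_iff e w j).1, (next_iff e w j).1]
    · rw [ht_zero, ht_one]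
      exact hadm j
  have h1 : ∀ j : Fin (N + 1), IsExtremum (ht e w) (1, j) ↔
      ((bstep (Wd 2 w j.val) (col e (Wd 2 w) j.val)).2 = (col e (Wd 2 w) j.val).1 ∧
      (step (Wd 2 w (j.val + 1)) (col e (Wd 2 w) j.val)).2 = (col e (Wd 2 w) j.val).1) := by
    intro j
    rw [extremum_iff (ht e w) 1 0 (by decide) j]
    · simp only [ht_zero, ht_one]
      rw [(prev_iff e w j).2, (next_iff e w j).2]
    · rw [ht_zero, ht_one]
      have := hadm j
      unfold Adm at this
      omega
  rw [Set.ncard_eq_toFinset_card', Set.toFinset_ofPred, Finset.card_filter,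
    Fintype.sum_prod_type, Fin.sum_univ_two, ← Finset.sum_add_distrib]
  unfold stat
  rw [Finset.sum_range]
  refine Finset.sum_congr rfl fun j _ => ?_
  rw [← g_count _ _ _ (hadm j)]
  simp only [h0, h1]

/-- `E_d(2, N+1)` counts words. -/
lemma E_eq (d N : ℕ) :
    E d 2 (N + 1) = 2 * ((Finset.univ : Finset (Fin N → Fin 3)).filter
      (fun w => stat 2 w = d)).card := by
  classical
  unfold E
  have hcard : Nat.card (Bool × {w : Fin N → Fin 3 // stat 2 w = d}) =
      2 * ((Finset.univ : Finset (Fin N → Fin 3)).filter (fun w => stat 2 w = d)).card := by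
    rw [Nat.card_prod, Nat.card_eq_fintype_card, Fintype.card_bool, Nat.card_eq_fintype_card,
      Fintype.card_subtype]
  rw [← hcard]
  symm
  have he : ∀ b : Bool, (if b then (1 : ℤ) else -1) = 1 ∨ (if b then (1 : ℤ) else -1) = -1 := by
    intro b
    cases b <;> simp
  refine Nat.card_congr (Equiv.ofBijective (fun x => ⟨ht (if x.1 then 1 else -1) x.2.1,
    ht_isHeight _ (he x.1) _, ?_⟩) ⟨?_, ?_⟩)
  · rw [ncard_extrema _ (he x.1)]
    exact x.2.2
  · rintro ⟨b, w, hw⟩ ⟨b', w', hw'⟩ h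
    simp only [Subtype.mk.injEq] at h
    obtain ⟨h1, h2⟩ := ht_injective (he b) h
    have hb : b = b' := by
      cases b <;> cases b' <;> simp at h1 ⊢
    subst hb h2
    rfl
  · rintro ⟨h, hh, hd⟩
    obtain ⟨e, he1, w, hw⟩ := ht_surjective h hh
    subst hw
    rw [ncard_extrema e he1] at hd
    rcases he1 with he1 | he1
    · refine ⟨⟨true, w, hd⟩, Subtype.ext ?_⟩
      change ht (if (true : Bool) then 1 else -1) w = ht e w
      rw [he1]
      rfl
    · refine ⟨⟨false, w, hd⟩, Subtype.ext ?_⟩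
      change ht (if (false : Bool) then 1 else -1) w = ht e w
      rw [he1]
      rfl

/-! ### Generating functions -/

open Polynomial

/-- The generating polynomial of the words of length `N`. -/
noncomputable def T (N : ℕ) (p : Fin 3) : ℚ[X] := ∑ w : Fin N → Fin 3, X ^ stat p w

lemma T_zero (p : Fin 3) : T 0 p = X ^ g p 2 := by
  unfold T
  rw [Fintype.sum_unique]
  unfold stat
  rw [zero_add, Finset.sum_range_one]
  rfl

lemma Wd_cons (p x : Fin 3) {N : ℕ} (w : Fin N → Fin 3) (j : ℕ) :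
    Wd p (Fin.cons x w : Fin (N + 1) → Fin 3) (j + 1) = Wd x w j := by
  rcases j with _ | j
  · change (if h : 0 < N + 1 then (Fin.cons x w : Fin (N + 1) → Fin 3) ⟨0, h⟩ else 2) = x
    rw [dif_pos (Nat.succ_pos N)]
    rfl
  · change (if h : j + 1 < N + 1 then (Fin.cons x w : Fin (N + 1) → Fin 3) ⟨j + 1, h⟩ else 2) =
      (if h : j < N then w ⟨j, h⟩ else 2)
    by_cases h : j < N
    · rw [dif_pos h, dif_pos (by omega)]
      have : (⟨j + 1, by omega⟩ : Fin (N + 1)) = Fin.succ ⟨j, h⟩ := rfl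
      rw [this, Fin.cons_succ]
    · rw [dif_neg h, dif_neg (by omega)]

lemma stat_cons (p x : Fin 3) {N : ℕ} (w : Fin N → Fin 3) :
    stat p (Fin.cons x w : Fin (N + 1) → Fin 3) = g p x + stat x w := by
  unfold stat
  rw [Finset.sum_range_succ', add_comm]
  congr 1
  refine Finset.sum_congr rfl fun j _ => ?_
  rw [Wd_cons, Wd_cons]

lemma T_succ (N : ℕ) (p : Fin 3) : T (N + 1) p = ∑ x : Fin 3, X ^ g p x * T N x := by
  unfold T
  rw [← (Fin.consEquiv (fun _ => Fin 3)).sum_comp, Fintype.sum_prod_type]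
  refine Finset.sum_congr rfl fun x _ => ?_
  rw [Finset.mul_sum]
  refine Finset.sum_congr rfl fun w _ => ?_
  have : (Fin.consEquiv (fun _ => Fin 3)) (x, w) = (Fin.cons x w : Fin (N + 1) → Fin 3) := rfl
  rw [this, stat_cons, pow_add]

lemma T_symm (N : ℕ) : T N 0 = T N 1 := by
  induction N with
  | zero => rw [T_zero, T_zero]; rfl
  | succ N ih =>
    rw [T_succ, T_succ, Fin.sum_univ_three, Fin.sum_univ_three, ih]
    have h1 : g 0 0 = 0 := rfl
    have h2 : g 0 1 = 1 := rfl
    have h3 : g 0 2 = 1 := rfl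
    have h4 : g 1 0 = 1 := rfl
    have h5 : g 1 1 = 0 := rfl
    have h6 : g 1 2 = 1 := rfl
    rw [h1, h2, h3, h4, h5, h6]
    ring

lemma T_two (N : ℕ) : T (N + 1) 2 = X ^ 2 * T N 2 + 2 * (X * T N 0) := by
  rw [T_succ, Fin.sum_univ_three, ← T_symm]
  have h1 : g 2 0 = 1 := rfl
  have h2 : g 2 1 = 1 := rfl
  have h3 : g 2 2 = 2 := rfl
  rw [h1, h2, h3]
  ring

lemma T_up (N : ℕ) : T (N + 1) 0 = T N 0 + X * T N 0 + X * T N 2 := by
  rw [T_succ, Fin.sum_univ_three, ← T_symm]
  have h1 : g 0 0 = 0 := rfl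
  have h2 : g 0 1 = 1 := rfl
  have h3 : g 0 2 = 1 := rfl
  rw [h1, h2, h3]
  ring

lemma card_eq_coeff (d N : ℕ) :
    ((((Finset.univ : Finset (Fin N → Fin 3)).filter (fun w => stat 2 w = d)).card : ℕ) : ℚ) =
      (T N 2).coeff d := by
  unfold T
  rw [finsetSum_coeff, Finset.card_filter, Nat.cast_sum]
  refine Finset.sum_congr rfl fun w _ => ?_
  rw [coeff_X_pow]
  by_cases h : stat 2 w = d
  · rw [if_pos h, if_pos h.symm, Nat.cast_one]
  · rw [if_neg h, if_neg (Ne.symm h), Nat.cast_zero]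

/-- `x_d(z)`. -/
noncomputable def xs (d : ℕ) : PowerSeries ℚ := PowerSeries.mk fun N => (T N 0).coeff d

/-- `y_d(z)`. -/
noncomputable def ys (d : ℕ) : PowerSeries ℚ := PowerSeries.mk fun N => (T N 2).coeff d

lemma xs_zero : xs 0 = 0 := by
  have h : ∀ N, (T N 0).coeff 0 = 0 ∧ (T N 2).coeff 0 = 0 := by
    intro N
    induction N with
    | zero =>
      rw [T_zero, T_zero]
      have h3 : g 0 2 = 1 := rfl
      have h4 : g 2 2 = 2 := rfl
      rw [h3, h4]
      simp
    | succ N ih =>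
      rw [T_up, T_two]
      simp [ih.1, mul_coeff_zero]
  ext N
  simp [xs, (h N).1]

lemma ys_zero : ys 0 = 0 := by
  have h : ∀ N, (T N 2).coeff 0 = 0 := by
    intro N
    cases N with
    | zero =>
      rw [T_zero]
      have h4 : g 2 2 = 2 := rfl
      rw [h4]
      simp
    | succ N =>
      rw [T_two]
      simp [mul_coeff_zero]
  ext N
  simp [ys, h N]

lemma ys_one : ys 1 = 0 := by
  have h0 : ∀ N, (T N 0).coeff 0 = 0 := by
    intro N
    have := congrArg (PowerSeries.coeff N) xs_zero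
    simpa [xs] using this
  have h : ∀ N, (T N 2).coeff 1 = 0 := by
    intro N
    cases N with
    | zero =>
      rw [T_zero]
      have h4 : g 2 2 = 2 := rfl
      rw [h4, coeff_X_pow]
      norm_num
    | succ N =>
      rw [T_two, coeff_add, coeff_X_pow_mul', if_neg (by norm_num), zero_add]
      have h2 : (2 : ℚ[X]) * (X * T N 0) = C 2 * (X * T N 0) := by rw [map_ofNat C 2]
      rw [h2, coeff_C_mul, coeff_X_mul, h0, mul_zero]
  ext N
  simp [ys, h N]

lemma xs_rec (d : ℕ) : xs (d + 1) = PowerSeries.C (if d = 0 then (1 : ℚ) else 0) +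
    PowerSeries.X * (xs (d + 1) + xs d + ys d) := by
  ext N
  cases N with
  | zero =>
    simp only [xs, PowerSeries.coeff_mk, map_add, PowerSeries.coeff_zero_C,
      PowerSeries.coeff_zero_X_mul, add_zero]
    rw [T_zero]
    have h3 : g 0 2 = 1 := rfl
    rw [h3, coeff_X_pow]
    by_cases h : d = 0
    · rw [if_pos (by omega), if_pos h]
    · rw [if_neg (by omega), if_neg h]
  | succ N =>
    rw [map_add, PowerSeries.coeff_succ_X_mul, PowerSeries.coeff_C, if_neg (Nat.succ_ne_zero N),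
      zero_add, map_add, map_add]
    simp only [xs, ys, PowerSeries.coeff_mk]
    rw [T_up, coeff_add, coeff_add, coeff_X_mul, coeff_X_mul]

lemma ys_rec (d : ℕ) : ys (d + 2) = PowerSeries.C (if d = 0 then (1 : ℚ) else 0) +
    PowerSeries.X * (ys d + 2 * xs (d + 1)) := by
  ext N
  cases N with
  | zero =>
    simp only [ys, PowerSeries.coeff_mk, map_add, PowerSeries.coeff_zero_C,
      PowerSeries.coeff_zero_X_mul, add_zero]
    rw [T_zero]
    have h3 : g 2 2 = 2 := rfl
    rw [h3, coeff_X_pow]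
    by_cases h : d = 0
    · rw [if_pos (by omega), if_pos h]
    · rw [if_neg (by omega), if_neg h]
  | succ N =>
    rw [map_add, PowerSeries.coeff_succ_X_mul, PowerSeries.coeff_C, if_neg (Nat.succ_ne_zero N),
      zero_add, map_add]
    have h2 : (2 : PowerSeries ℚ) * xs (d + 1) = PowerSeries.C 2 * xs (d + 1) := by
      rw [map_ofNat PowerSeries.C 2]
    have h2' : (2 : ℚ[X]) * (X * T N 0) = C 2 * (X * T N 0) := by rw [map_ofNat C 2]
    rw [h2, PowerSeries.coeff_C_mul]
    simp only [xs, ys, PowerSeries.coeff_mk]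
    rw [T_two, coeff_add, h2', coeff_C_mul, coeff_X_mul, coeff_X_pow_mul]

lemma F_eq (d : ℕ) (hd : 3 ≤ d) : F d 2 = 2 * (PowerSeries.X * ys d) := by
  have h2 : (2 : PowerSeries ℚ) * (PowerSeries.X * ys d) =
    PowerSeries.C 2 * (PowerSeries.X * ys d) := by rw [map_ofNat PowerSeries.C 2]
  rw [h2]
  ext n
  rw [PowerSeries.coeff_C_mul]
  unfold F
  rw [PowerSeries.coeff_mk]
  rcases n with _ | _ | n
  · simp
  · rw [if_neg (by norm_num), zero_add]
    have : PowerSeries.coeff 1 (PowerSeries.X * ys d) = PowerSeries.coeff 0 (ys d) :=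
      PowerSeries.coeff_succ_X_mul 0 (ys d)
    rw [this]
    simp only [ys, PowerSeries.coeff_mk]
    rw [T_zero]
    have h3 : g 2 2 = 2 := rfl
    rw [h3, coeff_X_pow, if_neg (by omega), mul_zero]
  · rw [if_pos (by omega), PowerSeries.coeff_succ_X_mul, E_eq]
    simp only [ys, PowerSeries.coeff_mk]
    rw [← card_eq_coeff]
    push_cast
    ring

lemma coe_two : ((2 : ℚ[X]) : PowerSeries ℚ) = 2 :=
  map_ofNat (Polynomial.coeToPowerSeries.ringHom (R := ℚ)) 2

/-- Numerators: `(1-z)^d x_d = A`, `(1-z)^(d-1) y_d = B`, with the first two Taylor data at `1`. -/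
lemma numerators (d : ℕ) : ∃ A B B' : ℚ[X],
    (1 - PowerSeries.X) ^ (d + 2) * xs (d + 2) = (A : PowerSeries ℚ) ∧
    (1 - PowerSeries.X) ^ (d + 2) * ys (d + 2) = (1 - PowerSeries.X) * (B : PowerSeries ℚ) ∧
    (1 - PowerSeries.X) ^ (d + 3) * ys (d + 3) = (1 - PowerSeries.X) * (B' : PowerSeries ℚ) ∧
    A.eval 1 = 1 ∧ A.derivative.eval 1 = 3 - ((d : ℚ) + 2) ∧ B.eval 1 = 2 ∧ B'.eval 1 = 2 ∧
    B'.derivative.eval 1 = 10 - 2 * ((d : ℚ) + 3) := by
  have hx1 : (1 - PowerSeries.X) * xs 1 = (1 : PowerSeries ℚ) := by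
    have h := xs_rec 0
    rw [xs_zero, ys_zero, if_pos rfl, map_one, zero_add, add_zero, add_zero] at h
    linear_combination h
  induction d with
  | zero =>
    have h2 := xs_rec 1
    rw [ys_one, if_neg one_ne_zero, map_zero, zero_add, add_zero] at h2
    have h3 := ys_rec 0
    rw [ys_zero, if_pos rfl, map_one, zero_add, zero_add] at h3
    have h4 := ys_rec 1
    rw [ys_one, if_neg one_ne_zero, map_zero, zero_add, zero_add] at h4
    simp only [Nat.reduceAdd] at h2 h3 h4
    have hx2 : (1 - PowerSeries.X) * xs 2 = PowerSeries.X * xs 1 := by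
      linear_combination h2
    refine ⟨X, 1 + X, 2 * X ^ 2, ?_, ?_, ?_, ?_, ?_, ?_, ?_, ?_⟩
    · rw [Polynomial.coe_X]
      simp only [zero_add]
      linear_combination (1 - PowerSeries.X) * hx2 + PowerSeries.X * hx1
    · rw [Polynomial.coe_add, Polynomial.coe_one, Polynomial.coe_X]
      simp only [zero_add]
      linear_combination (1 - PowerSeries.X) ^ 2 * h3 + 2 * PowerSeries.X *
        (1 - PowerSeries.X) * hx1
    · have : ((2 * X ^ 2 : ℚ[X]) : PowerSeries ℚ) = 2 * PowerSeries.X ^ 2 := by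
        rw [Polynomial.coe_mul, Polynomial.coe_pow, Polynomial.coe_X, coe_two]
      rw [this]
      simp only [zero_add]
      linear_combination (1 - PowerSeries.X) ^ 3 * h4 + 2 * PowerSeries.X *
        (1 - PowerSeries.X) ^ 2 * hx2 + 2 * PowerSeries.X ^ 2 * (1 - PowerSeries.X) * hx1
    · simp
    · simp; norm_num
    · simp; norm_num
    · simp
    · simp; norm_num
  | succ d ih =>
    obtain ⟨A, B, B', hA, hB, hB', eA, eA', eB, eB', eB''⟩ := ih
    have h1 := xs_rec (d + 2)
    rw [if_neg (by omega), map_zero, zero_add] at h1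
    have h2 := ys_rec (d + 2)
    rw [if_neg (by omega), map_zero, zero_add] at h2
    have e1 : d + 2 + 1 = d + 3 := rfl
    have e2 : d + 2 + 2 = d + 4 := rfl
    rw [e1] at h1 h2
    rw [e2] at h2
    have e3 : d + 1 + 2 = d + 3 := rfl
    have e4 : d + 1 + 3 = d + 4 := rfl
    rw [e3, e4]
    have hA2 : (1 - PowerSeries.X) ^ (d + 3) * xs (d + 3) =
        ((X * A + X * (1 - X) * B : ℚ[X]) : PowerSeries ℚ) := by
      have hc : ((X * A + X * (1 - X) * B : ℚ[X]) : PowerSeries ℚ) =
          PowerSeries.X * (A : PowerSeries ℚ) +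
          PowerSeries.X * (1 - PowerSeries.X) * (B : PowerSeries ℚ) := by
        push_cast
        rfl
      rw [hc, ← hA]
      have h3 : (1 - PowerSeries.X) * xs (d + 3) = PowerSeries.X * (xs (d + 2) + ys (d + 2)) := by
        linear_combination h1
      rw [pow_succ, mul_assoc, h3]
      linear_combination PowerSeries.X * hB
    have hB2 : (1 - PowerSeries.X) ^ (d + 4) * ys (d + 4) = (1 - PowerSeries.X) *
        ((X * (1 - X) ^ 2 * B + 2 * X * (X * A + X * (1 - X) * B) : ℚ[X]) : PowerSeries ℚ) := by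
      have hc : ((X * (1 - X) ^ 2 * B + 2 * X * (X * A + X * (1 - X) * B) : ℚ[X]) :
          PowerSeries ℚ) =
          PowerSeries.X * (1 - PowerSeries.X) ^ 2 * (B : PowerSeries ℚ) +
          2 * PowerSeries.X * ((X * A + X * (1 - X) * B : ℚ[X]) : PowerSeries ℚ) := by
        push_cast
        rw [coe_two]
      rw [hc, ← hA2, h2]
      linear_combination PowerSeries.X * (1 - PowerSeries.X) ^ 2 * hB
    refine ⟨X * A + X * (1 - X) * B, B', X * (1 - X) ^ 2 * B + 2 * X * (X * A + X * (1 - X) * B),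
      hA2, hB', hB2, ?_, ?_, eB', ?_, ?_⟩
    · simp [eA]
    · simp [eA, eA', eB]
      ring
    · simp [eA]
    · simp [eA, eA', eB, derivative_pow]
      ring

/-- `(1-z)^(d-1) F_{d,2}(z)` is a polynomial `N` with `N(1) = 4` and `N'(1) = 24 - 4d`. -/
lemma numerator_F (d : ℕ) (hd : 3 ≤ d) : ∃ N : ℚ[X],
    (1 - PowerSeries.X) ^ (d - 1) * F d 2 = (N : PowerSeries ℚ) ∧
    N.eval 1 = 4 ∧ N.derivative.eval 1 = 24 - 4 * (d : ℚ) := by
  obtain ⟨k, rfl⟩ : ∃ k, d = k + 3 := ⟨d - 3, by omega⟩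
  obtain ⟨A, B, B', hA, hB, hB', eA, eA', eB, eB', eB''⟩ := numerators k
  refine ⟨2 * X * B', ?_, ?_, ?_⟩
  · have e1 : k + 3 - 1 = k + 2 := by omega
    rw [e1, F_eq _ hd]
    have hne : (1 - PowerSeries.X : PowerSeries ℚ) ≠ 0 := by
      intro h
      have := congrArg PowerSeries.constantCoeff h
      simp at this
    have h1 : (1 - PowerSeries.X) ^ (k + 2) * ys (k + 3) = (B' : PowerSeries ℚ) := by
      apply mul_left_cancel₀ hne
      rw [← hB']
      ring
    rw [Polynomial.coe_mul, Polynomial.coe_mul, Polynomial.coe_X, coe_two, ← h1]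
    ring
  · simp [eB']
    norm_num
  · simp [eB', eB'']
    ring

lemma geom_mul (r k : ℕ) (h : k ≤ r) :
    ((1 - PowerSeries.X : PowerSeries ℚ)) ^ r * ((1 - PowerSeries.X)⁻¹) ^ k =
      (1 - PowerSeries.X) ^ (r - k) := by
  have hinv : (1 - PowerSeries.X : PowerSeries ℚ) * (1 - PowerSeries.X)⁻¹ = 1 := by
    apply PowerSeries.mul_inv_cancel
    simp
  have h1 : (1 - PowerSeries.X : PowerSeries ℚ) ^ r =
      (1 - PowerSeries.X) ^ (r - k) * (1 - PowerSeries.X) ^ k := by
    rw [← pow_add]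
    congr 1
    omega
  rw [h1, mul_assoc, ← mul_pow, hinv, one_pow, mul_one]

lemma one_sub_X_ne : (1 - PowerSeries.X : PowerSeries ℚ) ≠ 0 := by
  intro h
  have := congrArg PowerSeries.constantCoeff h
  simp at this

/-- Clearing the denominators of an expansion. -/
lemma clear_expansion (r : ℕ) (c : ℕ → ℚ) (Q : ℚ[X]) :
    (1 - PowerSeries.X) ^ r * (∑ k ∈ Finset.Icc 1 r,
      PowerSeries.C (c k) * ((1 - PowerSeries.X)⁻¹) ^ (r + 1 - k) + (Q : PowerSeries ℚ)) =
    ((∑ k ∈ Finset.range r, C (c (k + 1)) * (1 - X) ^ k + (1 - X) ^ r * Q : ℚ[X]) :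
      PowerSeries ℚ) := by
  have h1 : ∑ k ∈ Finset.Icc 1 r,
      PowerSeries.C (c k) * ((1 - PowerSeries.X)⁻¹ : PowerSeries ℚ) ^ (r + 1 - k) =
      ∑ k ∈ Finset.range r,
      PowerSeries.C (c (k + 1)) * ((1 - PowerSeries.X)⁻¹) ^ (r - k) := by
    refine Finset.sum_nbij' (fun k => k - 1) (fun k => k + 1) ?_ ?_ ?_ ?_ ?_
    · intro k hk
      rw [Finset.mem_Icc] at hk
      rw [Finset.mem_range]
      omega
    · intro k hk
      rw [Finset.mem_range] at hk
      rw [Finset.mem_Icc]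
      omega
    · intro k hk
      rw [Finset.mem_Icc] at hk
      omega
    · intro k _
      omega
    · intro k hk
      rw [Finset.mem_Icc] at hk
      have e1 : k - 1 + 1 = k := by omega
      have e2 : r + 1 - k = r - (k - 1) := by omega
      rw [e1, e2]
  rw [h1, mul_add, Finset.mul_sum]
  have h3 : ((∑ k ∈ Finset.range r, C (c (k + 1)) * (1 - X) ^ k + (1 - X) ^ r * Q : ℚ[X]) :
      PowerSeries ℚ) = ∑ k ∈ Finset.range r, PowerSeries.C (c (k + 1)) *
        (1 - PowerSeries.X) ^ k + (1 - PowerSeries.X) ^ r * (Q : PowerSeries ℚ) := by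
    have h4 := map_add (Polynomial.coeToPowerSeries.ringHom (R := ℚ))
      (∑ k ∈ Finset.range r, C (c (k + 1)) * (1 - X) ^ k) ((1 - X) ^ r * Q)
    rw [map_sum, map_mul, map_pow, map_sub, map_one] at h4
    simp only [Polynomial.coeToPowerSeries.ringHom_apply, map_mul, map_pow, map_sub, map_one,
      Polynomial.coe_X, Polynomial.coe_C] at h4
    exact h4
  rw [h3]
  congr 1
  refine Finset.sum_congr rfl fun k hk => ?_
  have hk' := Finset.mem_range.mp hk
  have h5 := geom_mul r (r - k) (by omega)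
  have h6 : r - (r - k) = k := by omega
  rw [h6] at h5
  rw [← h5]
  ring

/-- Expansion of a polynomial in powers of `1 - X`. -/
lemma expand_poly (N : ℚ[X]) (r : ℕ) : ∃ (a : ℕ → ℚ) (Q : ℚ[X]),
    N = ∑ k ∈ Finset.range r, C (a k) * (1 - X) ^ k + (1 - X) ^ r * Q := by
  induction r with
  | zero => exact ⟨fun _ => 0, N, by simp⟩
  | succ r ih =>
    obtain ⟨a, Q, h⟩ := ih
    have hroot : (Q - C (Q.eval 1)).IsRoot 1 := by simp
    obtain ⟨R, hR⟩ := dvd_iff_isRoot.mpr hroot
    refine ⟨fun k => if k = r then Q.eval 1 else a k, -R, ?_⟩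
    rw [Finset.sum_range_succ]
    simp only [if_true]
    have h1 : ∑ k ∈ Finset.range r, C (if k = r then Q.eval 1 else a k) * (1 - X) ^ k =
        ∑ k ∈ Finset.range r, C (a k) * (1 - X) ^ k := by
      refine Finset.sum_congr rfl fun k hk => ?_
      have := Finset.mem_range.mp hk
      rw [if_neg (by omega)]
    rw [h1, pow_succ]
    have h2 : Q = C (Q.eval 1) + (1 - X) * (-R) := by
      have : Q = C (Q.eval 1) + (X - C 1) * R := by
        rw [← hR]
        ring
      rw [map_one] at this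
      linear_combination this
    conv_lhs => rw [h, h2]
    ring

/-- Existence of the expansion. -/
lemma exists_expansion (d : ℕ) (hd : 1 ≤ d) (G : PowerSeries ℚ) (N : ℚ[X])
    (hN : (1 - PowerSeries.X) ^ (d - 1) * G = (N : PowerSeries ℚ)) :
    ∃ c, IsPrincipalExpansion d G c := by
  obtain ⟨r, rfl⟩ : ∃ r, d = r + 1 := ⟨d - 1, by omega⟩
  simp only [Nat.add_sub_cancel] at hN
  obtain ⟨a, Q, h⟩ := expand_poly N r
  refine ⟨fun k => a (k - 1), Q, ?_⟩
  simp only [Nat.add_sub_cancel]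
  apply mul_left_cancel₀ (pow_ne_zero r one_sub_X_ne)
  rw [hN, clear_expansion r (fun k => a (k - 1)) Q, h]
  simp only [Nat.add_sub_cancel]

/-- Uniqueness of the first two coefficients. -/
lemma expansion_unique (d : ℕ) (hd : 3 ≤ d) (G : PowerSeries ℚ) (N : ℚ[X])
    (hN : (1 - PowerSeries.X) ^ (d - 1) * G = (N : PowerSeries ℚ)) (c : ℕ → ℚ)
    (hc : IsPrincipalExpansion d G c) : c 1 = N.eval 1 ∧ c 2 = - N.derivative.eval 1 := by
  obtain ⟨r, rfl⟩ : ∃ r, d = r + 2 + 1 := ⟨d - 3, by omega⟩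
  obtain ⟨Q, hQ⟩ := hc
  simp only [Nat.add_sub_cancel] at hN hQ
  rw [hQ, clear_expansion (r + 2) c Q] at hN
  have hN' := Polynomial.coe_injective ℚ hN
  rw [Finset.sum_range_succ', Finset.sum_range_succ'] at hN'
  have h1 : ∑ k ∈ Finset.range r, C (c (k + 1 + 1 + 1)) * (1 - X) ^ (k + 1 + 1) =
      (1 - X) * ((1 - X) * ∑ k ∈ Finset.range r, C (c (k + 3)) * (1 - X) ^ k) := by
    rw [Finset.mul_sum, Finset.mul_sum]
    refine Finset.sum_congr rfl fun k _ => ?_
    ring
  rw [h1] at hN'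
  obtain ⟨R, hR⟩ : ∃ R : ℚ[X], R = ∑ k ∈ Finset.range r, C (c (k + 3)) * (1 - X) ^ k +
    (1 - X) ^ r * Q := ⟨_, rfl⟩
  have h2 : N = (1 - X) * ((1 - X) * R) + C (c 2) * (1 - X) + C (c 1) := by
    rw [← hN', hR]
    simp only [zero_add, pow_zero, pow_one, mul_one]
    ring
  constructor
  · rw [h2]
    simp
  · rw [h2]
    simp

/-- **Theorem.** For every `d ≥ 6` the series `F_{d,2}(z)` has an expansion
`c_1/(1-z)^(d-1) + c_2/(1-z)^(d-2) + ⋯ + polynomial`, and every such expansion has `c_1 = 4` and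
`c_2 = 4 (d - 6)`; in particular `c_2 ≠ -4 (d - 4)`. -/
theorem result : ∀ d : ℕ, 6 ≤ d → (∃ c, IsPrincipalExpansion d (F d 2) c) ∧
    ∀ c, IsPrincipalExpansion d (F d 2) c →
      c 1 = 4 ∧ c 2 = 4 * ((d : ℚ) - 6) ∧ c 2 ≠ -4 * ((d : ℚ) - 4) := by
  intro d hd
  obtain ⟨N, hN, h1, h2⟩ := numerator_F d (by omega)
  refine ⟨exists_expansion d (by omega) _ N hN, fun c hc => ?_⟩
  obtain ⟨e1, e2⟩ := expansion_unique d (by omega) _ N hN c hc
  have hd' : (6 : ℚ) ≤ (d : ℚ) := by exact_mod_cast hd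
  refine ⟨by rw [e1, h1], by rw [e2, h2]; ring, ?_⟩
  rw [e2, h2]
  intro h
  linarith

end Pool.Agent.Results.MP_562107_co.WidthTwo
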